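import Pool.Agent.T6.H34.EK.Main

set_option autoImplicit false

/-!
# The nef cone conjecture for quotients of the blow-up of `E^n` by arbitrary finite groups

Let `E = ℂ / ℤ[ω]` where `ω` is a primitive cube root of unity, let `G` be any finite subgroup of
`GL_n(ℂ)` which preserves the lattice `ℤ[ω]^n`, and let `X = Bl_0(E^n) / G`. Let `m` be the number of
scalar matrices in `G`, let `P` be the image of the exceptional divisor, let `D_i` be the images of the
divisors in `E^n` which are fixed pointwise by some element of `G` other than `1`, and let `e_i` be the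
order of the (cyclic) group of the elements of `G` which fix such a divisor pointwise. The divisor
`K_X + Δ`, where `Δ = (1 - n / m) P + ∑ (1 - 1 / e_i) D_i`, is numerically trivial, and `(X, Δ)` is a
klt Calabi-Yau pair if `n ≤ m`; if `n = m` and `G` contains no reflections, `K_X` itself is numerically
trivial. Examples are all finite groups `G` which contain the cube roots of unity, for `n ≤ 3`, or the
sixth roots of unity, for `n ≤ 4`, for instance the complex reflection groups `G(6, 1, n)`,
`G_25` and `G_26` (`n = 3`) and `G_32` (`n = 4`). The theorem says that for `2 ≤ n ≤ 4` the cone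
`Nef^e(X)` has a rational polyhedral fundamental domain for the action of `Aut(X)`. This is part (a)
of the conjecture for these pairs. The case in which all elements of `G` are scalars is
`Pool.Agent.Results.MP_ad47bb_ag.KummerBlowUps`.

The proof: the pullback to `Bl_0(E^n)` identifies `N^1(X)` with the pairs `(H, b)` such that `H` is
invariant under `G`. The line bundle given by an invariant integral form has a natural action of `G`;
its power with exponent `|G|` descends to `X`. The norm of a section of the line bundle on `Bl_0(E^n)`
is a section of this line bundle on `X`. To show that norms generate we use sections which do not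
vanish at finitely many given points, or in finitely many given directions at `0`. Hence the nef cone
of `X` is the intersection of the nef cone of `Bl_0(E^n)` with `N^1(X)`, and the same is true for the
convex hull of the rational points. Then we use reduction theory for the group of the automorphisms
of the lattice which commute with `G`, which act on the invariant hermitian forms, and Dickson's
lemma for the values of the forms at lattice vectors.

`PresLat`, `grp`, `QBundle`, `IsCls`, `NSs`, `NS`, `integral`, `semiample`, `effective`, `nefCone`,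
`effCone`, `IsPullback`, `nefEff`, `IsAutGroup` and `HasDomain` are defined in
`Pool.Agent.T6.H34.EK.Defs`; `Lat`, `BlBundle`, its sections and `Normalizes` in
`Pool.Agent.R895.Defs`; `IsEis` (Eisenstein integers) and `kap = 2 / √3` in `Pool.Agent.R895.Eis`;
`LinGrp`, `Preserves` and `IsFundDomain` in `Pool.Agent.Y167.Stm`; `cone` in
`Pool.Agent.Y167.ConeDef`.
-/

namespace Pool.Agent.Results.MP_ad47bb_ag.EquivariantKummer

open Pool.Agent.T6.H34.EK
open Pool.Agent.R895 (Lat kap)
open Pool.Agent.Y167.CC (LinGrp)

/-- Let `G` be a finite group of linear automorphisms of `ℂ^n` which preserves the lattice `ℤ[ω]^n`,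
let `E = ℂ / ℤ[ω]` and `X = Bl_0(E^n) / G`, where `2 ≤ n ≤ 4`. A class in `N^1(X)` is a pair `(H, b)`
where `H` is a hermitian form on `ℂ^n` and `b` is the coefficient of the exceptional divisor `-Ẽ` of
`Bl_0(E^n)`. The nef cone of `X` is the cone of all `(H, b)` in `N^1(X)` such that
`0 ≤ κ b ≤ H(v, v)` for all nonzero lattice vectors `v`, where `κ = 2 / √3`. There is a finite set `S`
of integral classes such that the cone `Π` spanned by `S` consists of nef effective classes and is a
fundamental domain for the action of `𝒢` on the cone `Nef^e(X)` of nef effective classes. -/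
theorem result (n : ℕ) (hn : 2 ≤ n ∧ n ≤ 4) (G : Subgroup ((Fin n → ℂ) ≃ₗ[ℂ] (Fin n → ℂ)))
    (hfin : Finite G) (hG : PresLat G) (𝒢 : LinGrp (NS (grp G hG))) (h𝒢 : IsAutGroup 𝒢) :
    (∀ x : NS (grp G hG), x ∈ nefCone (grp G hG) ↔
      0 ≤ coef x ∧ ∀ v, Lat v → v ≠ 0 → kap * coef x ≤ (form x v v).re) ∧
    HasDomain 𝒢 := by
  have hne : Nonempty (Fin n) := ⟨⟨0, by omega⟩⟩
  have hft : Fintype G := Fintype.ofFinite G
  refine ⟨fun x => ?_, core hn.1 hn.2 𝒢 h𝒢.int h𝒢.nef_eff fun g u hg => h𝒢.lin u g hg.norm hg.pb⟩
  have hk := Pool.Agent.R895.kap_pos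
  have hre : ∀ v : Fin n → ℂ, (Pool.Agent.R895.frm (up x) v v).re = (form x v v).re / kap :=
    fun v => Pool.Agent.R895.re_kap_div _
  rw [nefCone_eq hn.2]
  constructor
  · rintro ⟨-, h2, h3⟩
    refine ⟨h2, fun v hv hv0 => ?_⟩
    have h4 := h3 v hv hv0
    rw [hre, coef_up, le_div_iff₀ hk] at h4
    rwa [mul_comm]
  · rintro ⟨h2, h3⟩
    have h4 : ∀ v, Lat v → v ≠ 0 → coef x ≤ (Pool.Agent.R895.frm (up x) v v).re := by
      intro v hv hv0
      rw [hre, le_div_iff₀ hk, mul_comm]
      exact h3 v hv hv0
    refine ⟨Pool.Agent.R895.frm_psd (up x) fun v hv => ?_, h2, h4⟩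
    by_cases hv0 : v = 0
    · rw [hre, hv0]
      have h5 : form x (0 : Fin n → ℂ) 0 = 0 :=
        Pool.Agent.W594.SYZ2.TQ.h_zero_left (Pool.Agent.R895.form_herm (up x)) 0
      rw [h5, Complex.zero_re, zero_div]
    · exact h2.trans (h4 v hv hv0)

end Pool.Agent.Results.MP_ad47bb_ag.EquivariantKummer
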