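import Pool.Agent.T6.H34.E6.Eqv

set_option autoImplicit false

/-!
# The nef cone conjecture for quotients of the blow-up of `E^6` by arbitrary finite groups

Let `E = ℂ / ℤ[ω]` where `ω` is a primitive cube root of unity, let `G` be any finite subgroup of
`GL_6(ℂ)` which preserves the lattice `ℤ[ω]^6`, and let `X = Bl_0(E^6) / G`. If `G` contains the sixth
roots of unity, then the resolution `X → E^6 / G` of the image of `0` is crepant, and `(X, Δ)` is a klt
Calabi-Yau pair, where `Δ = ∑ (1 - 1 / e_i) D_i`, the `D_i` are the images of the divisors in `E^6`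
which are fixed pointwise by some element of `G` other than `1`, and `e_i` is the order of the (cyclic)
group of the elements of `G` which fix such a divisor pointwise. If `G` contains no reflections, then
`Δ = 0` and `K_X` itself is numerically trivial; an example is the quotient by the group of the sixth
roots of unity, with Picard number `37`. Other examples are the complex reflection groups `G(6, 1, 6)`
and `G_34` (the automorphisms of the Coxeter-Todd lattice). Six is the largest dimension in which the
quotients `Bl_0(E^n) / G` are klt Calabi-Yau pairs. The theorem says that `Nef^e(X)` has a rational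
polyhedral fundamental domain for the action of `Aut(X)`. This is part (a) of the conjecture for these
pairs. For `n ≤ 4` see `Pool.Agent.Results.MP_ad47bb_ag.EquivariantKummer`, for `n = 5` and scalar
groups `Pool.Agent.Results.MP_ad47bb_ag.KummerBlowUpsFive`.

The proof. As for `n ≤ 4`, line bundles, norms and reduction theory reduce the theorem to an inequality
between two positive definite hermitian forms `M`, `H` of rank `n` over `ℤ[ω]`: let `J` be a submodule
of `ℤ[ω]^n`; if `M ≥ 1` on all lattice vectors outside `J` and `H ≥ h` on all nonzero lattice vectors,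
then `tr(M H) ≥ h`, and `tr(M H) ≥ c h` with a constant `c > 1` if `J = 0`. The proofs for `n ≤ 5` use
Hermite's estimates for the successive minima, which are not sufficient for `n = 6`. New are two
ingredients (`Pool.Agent.T6.H34.E6`):

* Blichfeldt's bound for forms of rank `r` over `ℤ[ω]`, `det H ≥ (π / √3) ^ r / (r + 1)! * h ^ r`
  (`blich`), by integration over a fundamental domain.
* A sharp bound for the covering radius in rank two (`pair'`): if the form
  `m₀ |z₀ + μ z₁|² + m₁ |z₁|²` over `ℤ[ω]` is reduced, every point of `ℂ²` has a lattice vector at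
  distance `≤ m₀ / 6 + m₁ / 2`; the estimate coordinate by coordinate gives `(m₀ + m₁) / 3`. There is
  equality for the lattice `D₄`. It follows from an inequality for the sum of the distances of the
  vertices of an equilateral triangle from the hexagonal lattice (`hexa`).

In a reduced basis of `M` let `e_k` be the first vector outside `J`; the second bound gives a short
vector in the coset of `e_k`, and the inequality becomes linear in the successive minima of `M`. For
`k ≤ 1` Blichfeldt's bound is also used for `M`.

`PresLat`, `grp`, `QBundle`, `IsCls`, `NSs`, `NS`, `integral`, `semiample`, `effective`, `nefCone`,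
`effCone`, `IsPullback`, `nefEff`, `IsAutGroup` and `HasDomain` are defined in
`Pool.Agent.T6.H34.EK.Defs`; `Lat`, `BlBundle`, its sections and `Normalizes` in
`Pool.Agent.R895.Defs`; `IsEis` (Eisenstein integers) and `kap = 2 / √3` in `Pool.Agent.R895.Eis`;
`LinGrp`, `Preserves` and `IsFundDomain` in `Pool.Agent.Y167.Stm`; `cone` in
`Pool.Agent.Y167.ConeDef`.
-/

namespace Pool.Agent.Results.MP_ad47bb_ag.EquivariantKummerSix

open Pool.Agent.T6.H34.EK
open Pool.Agent.R895 (Lat kap)
open Pool.Agent.Y167.CC (LinGrp)

/-- Let `G` be a finite group of linear automorphisms of `ℂ^6` which preserves the lattice `ℤ[ω]^6`,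
let `E = ℂ / ℤ[ω]` and `X = Bl_0(E^6) / G`. A class in `N^1(X)` is a pair `(H, b)` where `H` is a
hermitian form on `ℂ^6` and `b` is the coefficient of the exceptional divisor `-Ẽ` of `Bl_0(E^6)`. The
nef cone of `X` is the cone of all `(H, b)` in `N^1(X)` such that `0 ≤ κ b ≤ H(v, v)` for all nonzero
lattice vectors `v`, where `κ = 2 / √3`. There is a finite set `S` of integral classes such that the
cone `Π` spanned by `S` consists of nef effective classes and is a fundamental domain for the action
of `𝒢` on the cone `Nef^e(X)` of nef effective classes. -/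
theorem result (G : Subgroup ((Fin 6 → ℂ) ≃ₗ[ℂ] (Fin 6 → ℂ)))
    (hfin : Finite G) (hG : PresLat G) (𝒢 : LinGrp (NS (grp G hG))) (h𝒢 : IsAutGroup 𝒢) :
    (∀ x : NS (grp G hG), x ∈ nefCone (grp G hG) ↔
      0 ≤ coef x ∧ ∀ v, Lat v → v ≠ 0 → kap * coef x ≤ (form x v v).re) ∧
    HasDomain 𝒢 := by
  have hft : Fintype G := Fintype.ofFinite G
  refine ⟨fun x => ?_, Pool.Agent.T6.H34.E6.core Pool.Agent.T6.H34.E6.ok_six 𝒢 h𝒢.int h𝒢.nef_eff
    fun g u hg => h𝒢.lin u g hg.norm hg.pb⟩
  have hk := Pool.Agent.R895.kap_pos
  have hre : ∀ v : Fin 6 → ℂ, (Pool.Agent.R895.frm (up x) v v).re = (form x v v).re / kap :=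
    fun v => Pool.Agent.R895.re_kap_div _
  rw [Pool.Agent.T6.H34.E6.nefCone_eq Pool.Agent.T6.H34.E6.ok_six]
  constructor
  · rintro ⟨-, h2, h3⟩
    refine ⟨h2, fun v hv hv0 => ?_⟩
    have h4 := h3 v hv hv0
    rw [hre, coef_up, le_div_iff₀ hk] at h4
    rwa [mul_comm]
  · rintro ⟨h2, h3⟩
    have h4 : ∀ v, Lat v → v ≠ 0 → coef x ≤ (Pool.Agent.R895.frm (up x) v v).re := by
      intro v hv hv0
      rw [hre, le_div_iff₀ hk, mul_comm]
      exact h3 v hv hv0
    refine ⟨Pool.Agent.R895.frm_psd (up x) fun v hv => ?_, h2, h4⟩
    by_cases hv0 : v = 0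
    · rw [hre, hv0]
      have h5 : form x (0 : Fin 6 → ℂ) 0 = 0 :=
        Pool.Agent.W594.SYZ2.TQ.h_zero_left (Pool.Agent.R895.form_herm (up x)) 0
      rw [h5]
      simp
    · exact h2.trans (h4 v hv hv0)

end Pool.Agent.Results.MP_ad47bb_ag.EquivariantKummerSix
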