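import Pool.Agent.T6.H34.GE.Main
import Pool.Agent.T6.H34.GK.Abs

set_option autoImplicit false

/-!
# The nef cone conjecture for quotients of the blow-up of `E³`, `E = ℂ / ℤ[i]`

Let `E = ℂ / ℤ[i]`, let `G` be any finite subgroup of `GL_3(ℂ)` which preserves the lattice `ℤ[i]³`,
and let `X = Bl_0(E³) / G`. Let `m` be the number of scalar matrices in `G`, let `P` be the image of
the exceptional divisor, let `D_i` be the images of the divisors in `E³` which are fixed pointwise by
some element of `G` other than `1`, and let `e_i` be the order of the (cyclic) group of the elements of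
`G` which fix such a divisor pointwise. The divisor `K_X + Δ`, where
`Δ = (1 - 3 / m) P + ∑ (1 - 1 / e_i) D_i`, is numerically trivial, and `(X, Δ)` is a klt Calabi-Yau
pair if `m = 4`, that is, if `G` contains the scalar `i`. Examples: the scalar group `G = ⟨i⟩` (here
`E³ / ⟨i⟩` is the Ueno-Campana threefold), the groups of monomial matrices with entries in `⟨i⟩`, and
the products of `⟨i⟩` with any finite subgroup of `GL_3(ℤ[i])`. The theorem determines the nef cone
of `X` and says that the cone `Nef^e(X)` has a rational polyhedral fundamental domain for the action of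
`Aut(X)`. This is part (a) of the conjecture for these pairs.

The new point over the Eisenstein case (`KummerBlowUps`, `EquivariantKummer`) is the inequality
`min_{v ∉ J} M(v, v) · min_{w ≠ 0} H(w, w) ≤ tr(M H)` for positive hermitian forms `M`, `H` of rank
`3` over `ℤ[i]` and proper submodules `J`, which is shown in `Pool.Agent.T6.H34.GK.LemB`. The Gaussian
integers have covering radius `1/2` instead of `1/3`, and with this constant the argument from the
Eisenstein case fails. The new ingredients are: the covering radius of a reduced lattice of rank `2`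
(`cov2'`: at most the second coefficient of the form, and at most the arithmetic mean of the two
coefficients), which is shown by averaging over two candidates; Hermite's inequality
`det H ≥ min(H)³ / 4` for rank `3`; and a change of the basis in the case in which the last two
coefficients `m_1`, `m_2` of the reduced form `M` nearly satisfy `m_2 = m_1 / 2`.

`PresLat` and `grp` are defined in `Pool.Agent.T6.H34.GE.Defs`; `QBundle`, `IsCls`, `NSs`, `NS`,
`integral`, `semiample`, `effective`, `nefCone`, `effCone`, `IsPullback`, `nefEff`, `IsAutGroup` and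
`HasDomain` in `Pool.Agent.T6.H34.EK.Defs`; `Lat` in `Pool.Agent.T6.H34.GK.Defs`; `IsGau` (Gaussian
integers) in `Pool.Agent.T6.H34.GK.Gau`; `BlBundle`, its sections and `Normalizes` in
`Pool.Agent.R895.Defs`; `LinGrp`, `Preserves` and `IsFundDomain` in `Pool.Agent.Y167.Stm`; `cone` in
`Pool.Agent.Y167.ConeDef`.
-/

namespace Pool.Agent.Results.MP_ad47bb_ag.GaussianKummer

open Pool.Agent.T6.H34.EK (NS nefCone coef form IsAutGroup HasDomain)
open Pool.Agent.T6.H34.GE (PresLat grp up nefCone_eq coef_up core)
open Pool.Agent.T6.H34.GK (Lat kap)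
open Pool.Agent.Y167.CC (LinGrp)

/-- Let `G` be a finite group of linear automorphisms of `ℂ³` which preserves the lattice `ℤ[i]³`,
let `E = ℂ / ℤ[i]` and `X = Bl_0(E³) / G`. A class in `N^1(X)` is a pair `(H, b)` where `H` is a
hermitian form on `ℂ³` and `b` is the coefficient of the exceptional divisor `-Ẽ` of `Bl_0(E³)`. The
nef cone of `X` is the cone of all `(H, b)` in `N^1(X)` such that `0 ≤ b ≤ H(v, v)` for all nonzero
lattice vectors `v`. There is a finite set `S` of integral classes such that the cone `Π` spanned by
`S` consists of nef effective classes and is a fundamental domain for the action of `𝒢` on the cone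
`Nef^e(X)` of nef effective classes. -/
theorem result (G : Subgroup ((Fin 3 → ℂ) ≃ₗ[ℂ] (Fin 3 → ℂ))) (hfin : Finite G) (hG : PresLat G)
    (𝒢 : LinGrp (NS (grp G hG))) (h𝒢 : IsAutGroup 𝒢) :
    (∀ x : NS (grp G hG), x ∈ nefCone (grp G hG) ↔
      0 ≤ coef x ∧ ∀ v, Lat v → v ≠ 0 → coef x ≤ (form x v v).re) ∧
    HasDomain 𝒢 := by
  have hne : Nonempty (Fin 3) := ⟨0⟩
  have hft : Fintype G := Fintype.ofFinite G
  refine ⟨fun x => ?_, core rfl 𝒢 h𝒢.int h𝒢.nef_eff fun g u hg => h𝒢.lin u g hg.norm hg.pb⟩
  have hre : ∀ v : Fin 3 → ℂ,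
      (Pool.Agent.T6.H34.GK.frm (up x) v v).re = (form x v v).re := by
    intro v
    have h1 : (Pool.Agent.T6.H34.GK.frm (up x) v v).re = (form x v v).re / kap :=
      Pool.Agent.T6.H34.GK.re_kap_div _
    rw [h1, show kap = 1 from rfl, div_one]
  rw [nefCone_eq rfl]
  constructor
  · rintro ⟨-, h2, h3⟩
    refine ⟨h2, fun v hv hv0 => ?_⟩
    have h4 := h3 v hv hv0
    rwa [hre, coef_up] at h4
  · rintro ⟨h2, h3⟩
    have h4 : ∀ v, Lat v → v ≠ 0 → coef x ≤ (Pool.Agent.T6.H34.GK.frm (up x) v v).re := by
      intro v hv hv0
      rw [hre]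
      exact h3 v hv hv0
    refine ⟨Pool.Agent.T6.H34.GK.frm_psd (up x) fun v hv => ?_, h2, h4⟩
    by_cases hv0 : v = 0
    · rw [hre, hv0]
      have h5 : form x (0 : Fin 3 → ℂ) 0 = 0 :=
        Pool.Agent.W594.SYZ2.TQ.h_zero_left (Pool.Agent.T6.H34.GK.form_herm (up x)) 0
      rw [h5, Complex.zero_re]
    · exact h2.trans (h4 v hv hv0)

end Pool.Agent.Results.MP_ad47bb_ag.GaussianKummer
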