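import Pool.Agent.T6.H41.K5.Tail

set_option autoImplicit false

/-!
# The nef cone conjecture for blow-ups of quotients of powers of an elliptic curve, dimension five

Let `E = ℂ / ℤ[ω]` where `ω` is a primitive cube root of unity, let `μ_m`, `m ∣ 6`, act on `E^n` by
multiplication, and let `X` be the blow-up of `E^n / μ_m` in the image of `0`, with exceptional divisor
`P`. The divisor `K_X + (1 - n / m) P` is numerically trivial, and `(X, (1 - n / m) P)` is a klt
Calabi-Yau pair if `n ≤ m`; for `n = 5`, `m = 6` this is the pair `(X, P / 6)`, of dimension five. The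
starting file `KummerBlowUps` of this problem proves part (a) of the conjecture for these `X` if
`2 ≤ n ≤ 4`. The theorem here is for `2 ≤ n ≤ 5`; the new case is `n = 5`. It also describes the nef
cone: a class with hermitian form `H` and coefficient `b` of `-P` is nef if and only if
`0 ≤ b ≤ (√3 / 2) H(v, v)` for all nonzero lattice vectors `v`, that is, if its degrees on the lines in
`P` and on all elliptic curves through the image of `0` are nonnegative.

The proof: as in the starting library `Pool.Agent.R895` one has to write multiples of `H` as sums of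
hermitian squares `|l_i|²` of integral linear functions, with at least `b` of them outside a given
proper sublattice, and this follows from the inequality `min H ≤ tr (M H)` for positive semidefinite
`M` which are at least `1` outside a proper sublattice. In rank five the proof of this inequality by
reduction theory needs the bound `det H > (min H)⁵ / 54` for positive definite hermitian forms over
`ℤ[ω]`, but the classical inequality of Hermite, `det H ≥ (2/3)¹⁰ (min H)⁵`, only gives the constant
`1 / 57.7`. The bound is proved with bases which are reduced in the sense of Hermite, Korkine and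
Zolotareff (`Pool.Agent.T6.H41.K5.Hkz`): for three consecutive minima `p`, `q`, `r` of such a basis one
has `q r ≥ (8/27) p²`, and equality could only hold if two coefficients of the form were deep holes of
the hexagonal lattice; but then there is a lattice vector with a value much smaller than `p`. So
`q r ≥ (31/100) p²` (`Pool.Agent.T6.H41.K5.Hex`), and `det H ≥ (2/3) (31/100)³ (min H)⁵`
(`Pool.Agent.T6.H41.K5.Herm`).

`Lat`, `kum`, `BlBundle`, `IsClass`, `N1s`, `N1`, `form`, `coef`, `integral`, `semiample`, `effective`,
`nefCone`, `effCone`, `Normalizes` and `IsPullback` are defined in `Pool.Agent.R895.Defs`; `IsEis`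
(Eisenstein integers) in `Pool.Agent.R895.Eis`; `LinGrp`, `Preserves` and `IsFundDomain` in
`Pool.Agent.Y167.Stm`; `cone` in `Pool.Agent.Y167.ConeDef`.
-/

namespace Pool.Agent.Results.MP_ad47bb_ag.KummerBlowUpsFive

open Pool.Agent.R895
open Pool.Agent.Y167 (cone)
open Pool.Agent.Y167.CC (LinGrp Preserves IsFundDomain)

variable {n m : ℕ}

/-- The space `N^1(X)` for the blow-up `X` of `E^n / μ_m` in the image of `0`. -/
def NS (n m : ℕ) : Type := N1 (kum (Fin n) m) (LinearMap.id : (Fin n → ℂ) →ₗ[ℂ] (Fin n → ℂ))

noncomputable instance : AddCommGroup (NS n m) :=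
  Submodule.addCommGroup (N1s (kum (Fin n) m) LinearMap.id)

noncomputable instance : Module ℝ (NS n m) :=
  Submodule.module (N1s (kum (Fin n) m) LinearMap.id)

noncomputable instance : TopologicalSpace (NS n m) :=
  instTopologicalSpaceSubtype (p := fun h => h ∈ N1s (kum (Fin n) m) LinearMap.id)

/-- The integral classes in `N^1(X)`. -/
def intNS (n m : ℕ) : Set (NS n m) := integral (kum (Fin n) m) LinearMap.id

/-- The nef cone of `X`. -/
def nefNS (n m : ℕ) : Set (NS n m) := nefCone (kum (Fin n) m) LinearMap.id

/-- The cone `Nef^e(X)` of nef and effective classes. -/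
def nefEff (n m : ℕ) : Set (NS n m) :=
  nefNS n m ∩ effCone (kum (Fin n) m) LinearMap.id

/-- The hermitian form of the class `x` (the Chern form of the pullback to `ℂ^n` of a line bundle with
this class). -/
noncomputable def formNS (x : NS n m) : (Fin n → ℂ) → (Fin n → ℂ) → ℂ :=
  form (show N1 (kum (Fin n) m) (LinearMap.id : (Fin n → ℂ) →ₗ[ℂ] (Fin n → ℂ)) from x)

/-- The coefficient of the class `x` at minus the exceptional divisor of the blow-up of `ℂ^n` in the
lattice vectors. -/
noncomputable def coefNS (x : NS n m) : ℝ :=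
  coef (show N1 (kum (Fin n) m) (LinearMap.id : (Fin n → ℂ) →ₗ[ℂ] (Fin n → ℂ)) from x)

/-- `g` is the pullback by an automorphism of `X` which is induced by a linear automorphism of
`ℂ^n`. -/
def IsLinPull (g : NS n m ≃ₗ[ℝ] NS n m) : Prop :=
  ∃ f : (Fin n → ℂ) ≃ₗ[ℂ] (Fin n → ℂ), Normalizes (kum (Fin n) m) f ∧
    IsPullback (Γ := kum (Fin n) m) (j := LinearMap.id) f g

/-- `𝒢` is a group of linear automorphisms of `N^1(X)` which preserves the integral classes and the
cone of nef and effective classes, and which contains the pullbacks `f^*` by all automorphisms of `X`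
which are induced by linear automorphisms `f` of `ℂ^n`. The image of `Aut(X)` has these properties,
and so does the image of `Aut(X, (1 - n / m) P)`. -/
structure IsAutGroup (𝒢 : LinGrp (NS n m)) : Prop where
  int : Preserves 𝒢 (intNS n m)
  nef_eff : Preserves 𝒢 (nefEff n m)
  lin : ∀ g, IsLinPull g → g ∈ 𝒢

/-- Let `X` be the blow-up of `E^n / μ_m` in the image of `0`, where `E = ℂ / ℤ[ω]`, `m ∣ 6` and
`2 ≤ n ≤ 5`. A class is nef if and only if its coefficient `b` is nonnegative and
`(2 / √3) b ≤ H(v, v)` for all nonzero vectors `v` with coordinates in `ℤ[ω]`, where `H` is its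
hermitian form. There is a finite set `S` of integral classes such that the cone `Π` spanned by `S`
consists of nef effective classes and is a fundamental domain for the action of `𝒢` on the cone
`Nef^e(X)` of nef effective classes. -/
theorem result (n m : ℕ) (hn : 2 ≤ n ∧ n ≤ 5) (_hm : m ∣ 6) (𝒢 : LinGrp (NS n m))
    (h𝒢 : IsAutGroup 𝒢) :
    (∀ x : NS n m, x ∈ nefNS n m ↔ 0 ≤ coefNS x ∧
      ∀ v, Lat v → v ≠ 0 → 2 / √3 * coefNS x ≤ (formNS x v v).re) ∧
    ∃ S : Finset (NS n m), ↑S ⊆ intNS n m ∧ cone S ⊆ nefEff n m ∧
      IsFundDomain 𝒢 (nefEff n m) (cone S) := by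
  have hne : Nonempty (Fin n) := ⟨⟨0, by omega⟩⟩
  constructor
  · intro x
    have h1 := Pool.Agent.T6.H41.K5.nefCone_eq (m := m) (id_isExt n) Function.injective_id hn.2
    have h2 : x ∈ nefNS n m ↔ x ∈ Nf m (LinearMap.id : (Fin n → ℂ) →ₗ[ℂ] (Fin n → ℂ)) := by
      unfold nefNS
      rw [h1]
      exact Iff.rfl
    rw [h2]
    have hk : (0 : ℝ) < kap := kap_pos
    have h3 : ∀ v : Fin n → ℂ, (formNS x v v).re =
        kap * (frm (show N1 (kum (Fin n) m) (LinearMap.id : (Fin n → ℂ) →ₗ[ℂ] (Fin n → ℂ)) from x)
          v v).re := by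
      intro v
      unfold formNS
      rw [form_frm, Complex.re_ofReal_mul]
    have hkap : (2 / √3 : ℝ) = kap := rfl
    constructor
    · rintro ⟨-, h5, h6⟩
      refine ⟨h5, fun v hv hv0 => ?_⟩
      rw [h3, hkap]
      exact mul_le_mul_of_nonneg_left (h6 v hv hv0) hk.le
    · rintro ⟨h5, h6⟩
      have h7 : ∀ v, Lat v → v ≠ 0 → coefNS x ≤
          (frm (show N1 (kum (Fin n) m) (LinearMap.id : (Fin n → ℂ) →ₗ[ℂ] (Fin n → ℂ)) from x)
            v v).re := by
        intro v hv hv0
        have h8 := h6 v hv hv0
        rw [h3, hkap] at h8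
        exact le_of_mul_le_mul_left h8 hk
      refine ⟨frm_psd _ fun v hv => ?_, h5, h7⟩
      by_cases hv0 : v = 0
      · rw [hv0]
        have h9 := frm_herm
          (show N1 (kum (Fin n) m) (LinearMap.id : (Fin n → ℂ) →ₗ[ℂ] (Fin n → ℂ)) from x)
        rw [Pool.Agent.W594.SYZ2.TQ.h_zero_left h9]
        simp
      · exact h5.trans (h7 v hv hv0)
  · refine Pool.Agent.T6.H41.K5.core (id_isExt n) Function.injective_id hn.1 hn.2 𝒢 h𝒢.int
      h𝒢.nef_eff fun g u hg => ?_
    obtain ⟨f, hf1, -, hf3⟩ := isPb_mem (id_isExt n) Function.injective_id hg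
    exact h𝒢.lin g ⟨f, hf1, hf3⟩

end Pool.Agent.Results.MP_ad47bb_ag.KummerBlowUpsFive
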